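import Pool.Agent.Q210.ZO.Perf

/-! Project ZO of helper4, job CEN: isometries fixing a hyperbolic plane commute with the elementary
group modulo the relative elementary group. -/

set_option autoImplicit false
set_option linter.unusedSimpArgs false
set_option linter.unusedVariables false
set_option linter.unusedSectionVars false

namespace Q190.ZO

open Matrix Q4.ZO Q210.ZO
open scoped commutatorElement

section

variable {R : Type} [CommRing R] {p q : ℕ} (d : Fin q → R)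

/-- the elementary group normalises the relative elementary group -/
theorem EEO_conj {a : R} {h z : GL (Ix p q) R} (hh : h ∈ EO d) (hz : z ∈ EEO d a) :
    h * z * h⁻¹ ∈ EEO d a := by
  unfold EEO at hz ⊢
  induction hz using Subgroup.closure_induction with
  | mem x hx =>
    obtain ⟨h', y, u, w, hh', hy, rfl⟩ := hx
    exact Subgroup.subset_closure ⟨h * h', y, u, w, mul_mem hh hh', hy, by group⟩
  | one =>
    rw [mul_one, mul_inv_cancel]
    exact one_mem _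
  | mul x y _ _ hx hy =>
    have e : h * (x * y) * h⁻¹ = (h * x * h⁻¹) * (h * y * h⁻¹) := by group
    rw [e]
    exact mul_mem hx hy
  | inv x _ hx =>
    have e : h * x⁻¹ * h⁻¹ = (h * x * h⁻¹)⁻¹ := by group
    rw [e]
    exact inv_mem hx

/-- exchanging the arguments -/
theorem Ei_swap {y : GL (Ix p q) R} {u b : Ix p q → R} (c : R) (hu : Qf d u = 0)
    (hb : Qf d b = 0) (h : IsEi d y u (c • b)) : IsEi d y b (-(c • u)) := by
  intro v
  have h1 : Qf d (-(c • u)) = 0 := by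
    rw [← neg_smul, Qf_smul, hu, mul_zero]
  rw [h v, h1, Qf_smul, hb, Bf_neg_right, Bf_smul_right, Bf_smul_right]
  module

/-- the factorisation of the Eichler transformation of a sum -/
theorem Ei_sum {C y A Z : GL (Ix p q) R} {u u' w : Ix p q → R} (hu : Qf d u = 0)
    (hu' : Qf d u' = 0) (huu : Bf d u u' = 0) (hw : Bf d w u = 0) (hw' : Bf d w u' = 0)
    (hC : IsEi d C u (Qf d w • u')) (hy : IsEi d y u' w) (hA : IsEi d A u w)
    (hZ : IsEi d Z (u + u') w) : Z = C * y * A := by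
  refine gl_ext fun v => ?_
  have b1 : Bf d u u = 0 := by rw [Bf_self, hu, mul_zero]
  have b2 : Bf d u' u' = 0 := by rw [Bf_self, hu', mul_zero]
  have b3 : Bf d u' u = 0 := by rw [Bf_comm, huu]
  have b4 : Bf d u w = 0 := by rw [Bf_comm, hw]
  have b5 : Bf d u' w = 0 := by rw [Bf_comm, hw']
  have b6 : Bf d w w = 2 * Qf d w := Bf_self d w
  obtain ⟨v1, hv1⟩ : ∃ v1, v1 = A.1 *ᵥ v := ⟨_, rfl⟩
  obtain ⟨v2, hv2⟩ : ∃ v2, v2 = y.1 *ᵥ v1 := ⟨_, rfl⟩
  rw [mv_mul, mv_mul, ← hv1, ← hv2, hC, hZ]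
  rw [hA] at hv1
  rw [hy] at hv2
  have c1 : Bf d v1 u = Bf d v u := by
    rw [hv1, Bf_sub_left, Bf_add_left, Bf_smul_left, Bf_smul_left, hw, b1]
    ring
  have c2 : Bf d v1 u' = Bf d v u' := by
    rw [hv1, Bf_sub_left, Bf_add_left, Bf_smul_left, Bf_smul_left, hw', huu]
    ring
  have c3 : Bf d v1 w = Bf d v w + 2 * Qf d w * Bf d v u := by
    rw [hv1, Bf_sub_left, Bf_add_left, Bf_smul_left, Bf_smul_left, b6, b4]
    ring
  have c4 : Bf d v2 u = Bf d v u := by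
    rw [hv2, Bf_sub_left, Bf_add_left, Bf_smul_left, Bf_smul_left, hw, b3, c1]
    ring
  have c5 : Bf d v2 u' = Bf d v u' := by
    rw [hv2, Bf_sub_left, Bf_add_left, Bf_smul_left, Bf_smul_left, hw', b2, c2]
    ring
  rw [Bf_smul_right, Qf_smul, hu', c4, c5, hv2, c2, c3, hv1, Bf_add_right]
  module

theorem w_split (i : Fin p) (w : Ix p q → R) : ∃ w1 : Ix p q → R, w = w1 +
    (w (Sum.inl i) • ve R i + w (Sum.inr (Sum.inl i)) • vf R i) ∧ w1 (Sum.inl i) = 0 ∧
    w1 (Sum.inr (Sum.inl i)) = 0 ∧ ∀ j, j ≠ Sum.inl i → j ≠ Sum.inr (Sum.inl i) → w1 j = w j := by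
  refine ⟨w - (w (Sum.inl i) • ve R i + w (Sum.inr (Sum.inl i)) • vf R i), by abel, ?_, ?_, ?_⟩
  · simp [ve_inl, vf_inl]
  · simp [ve_inr, vf_inr]
  · intro j h1 h2
    simp [ve, vf, Pi.single_apply, h1, h2]

/-- the Eichler transformations of `e_i` and `f_i` for one `i` generate the elementary group -/
theorem EO_le (i0 : Fin p) (K : Subgroup (GL (Ix p q) R))
    (hK : ∀ (x : GL (Ix p q) R) (u w : Ix p q → R), (u = ve R i0 ∨ u = vf R i0) →
      w (Sum.inl i0) = 0 → w (Sum.inr (Sum.inl i0)) = 0 → IsEi d x u w → x ∈ K) : EO d ≤ K := by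
  unfold EO
  rw [Subgroup.closure_le]
  rintro x ⟨u, w, hx, i, hu, h1, h2⟩
  by_cases hi : i = i0
  · subst hi
    exact hK x u w hu h1 h2 hx
  -- the basis vectors
  have q1 : Qf d u = 0 := Qf_u d i u hu
  have z0 := u_zero (j := i0) (i := i) (Ne.symm hi) u hu
  have be : Bf d (ve R i0 : Ix p q → R) u = 0 := by rw [Bf_comm, Bf_ve, z0.2]
  have bf : Bf d (vf R i0 : Ix p q → R) u = 0 := by rw [Bf_comm, Bf_vf, z0.1]
  have bases : ∀ b : Ix p q → R, (b = ve R i0 ∨ b = vf R i0) → ∀ c : R,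
      ∀ y : GL (Ix p q) R, IsEi d y u (c • b) → y ∈ K := by
    intro b hb c y hy
    refine hK y b (-(c • u)) hb ?_ ?_ (Ei_swap d c q1 (Qf_u d i0 b hb) hy)
    · rw [Pi.neg_apply, Pi.smul_apply, z0.1, smul_zero, neg_zero]
    · rw [Pi.neg_apply, Pi.smul_apply, z0.2, smul_zero, neg_zero]
  obtain ⟨w1, hw1, g1, g2, g3⟩ := w_split i0 w
  have k1 : w1 (Sum.inl i) = 0 := by
    rw [g3 _ (by simp [hi]) (by simp), h1]
  have k2 : w1 (Sum.inr (Sum.inl i)) = 0 := by
    rw [g3 _ (by simp) (by simp [hi]), h2]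
  have bw : Bf d w1 u = 0 := Bf_u d w1 i u hu k1 k2
  rw [hw1] at hx
  refine key_add d q1 bw ?_ ?_ ?_ x hx
  · rw [Bf_add_left, Bf_smul_left, Bf_smul_left, be, bf, mul_zero, mul_zero, add_zero]
  · intro y hy
    -- the main case
    have f1 : Qf d (vf R i0 : Ix p q → R) = 0 := Qf_vf d i0
    have f2 : Bf d w1 (vf R i0) = 0 := by rw [Bf_vf, g1]
    have f3 : Bf d w1 (ve R i0) = 0 := by rw [Bf_ve, g2]
    have f4 : Bf d u (ve R i0) = 0 := by rw [Bf_ve, z0.2]
    have f5 : Bf d u (vf R i0) = 0 := by rw [Bf_vf, z0.1]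
    have f6 : Bf d (Qf d w1 • u) (vf R i0) = 0 := by rw [Bf_smul_left, f5, mul_zero]
    obtain ⟨A, hA⟩ := exists_Ei d (vf R i0) w1 f1 f2
    obtain ⟨H, hH⟩ := exists_Ei d (ve R i0) u (Qf_ve d i0) f4
    obtain ⟨C, hC⟩ := exists_Ei d (vf R i0) (Qf d w1 • u) f1 f6
    have hAK : A ∈ K := hK A _ w1 (Or.inr rfl) g1 g2 hA
    have hHK : H ∈ K := hK H _ u (Or.inl rfl) z0.1 z0.2 hH
    have hCK : C ∈ K := hK C _ _ (Or.inr rfl) (by rw [Pi.smul_apply, z0.1, smul_zero])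
      (by rw [Pi.smul_apply, z0.2, smul_zero]) hC
    have hZ := Ei_conj (Ei_iso hH (Qf_ve d i0) f4) hA
    have e1 : H.1 *ᵥ vf R i0 = vf R i0 + u := by
      rw [hH, q1, Bf_comm d (vf R i0) u, f5]
      have : Bf d (vf R i0 : Ix p q → R) (ve R i0) = 1 := by
        rw [Bf_ve, vf_inr, if_pos rfl]
      rw [this]
      module
    have e2 : H.1 *ᵥ w1 = w1 := by
      rw [hH, q1, f3, bw]
      module
    rw [e1, e2] at hZ
    have h7 := Ei_sum d f1 q1 bf f2 bw hC hy hA hZ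
    have h8 : y = C⁻¹ * (H * A * H⁻¹) * A⁻¹ := by
      rw [h7]
      group
    rw [h8]
    exact K.mul_mem (K.mul_mem (K.inv_mem hCK) (K.mul_mem (K.mul_mem hHK hAK) (K.inv_mem hHK)))
      (K.inv_mem hAK)
  · refine key_add d q1 ?_ ?_ (bases _ (Or.inl rfl) _) (bases _ (Or.inr rfl) _)
    · rw [Bf_smul_left, be, mul_zero]
    · rw [Bf_smul_left, bf, mul_zero]

/-- matrices which are `1` modulo `a` -/
theorem mod_mulVec {a : R} {g : GL (Ix p q) R}
    (hg : ∀ i j, a ∣ g.1 i j - (1 : Matrix (Ix p q) (Ix p q) R) i j) (w : Ix p q → R) :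
    ∃ w' : Ix p q → R, g.1 *ᵥ w = w + a • w' := by
  choose c hc using hg
  refine ⟨(Matrix.of c) *ᵥ w, ?_⟩
  have h1 : g.1 = 1 + a • Matrix.of c := by
    ext i j
    rw [Matrix.add_apply, Matrix.smul_apply, Matrix.of_apply, smul_eq_mul, ← hc]
    ring
  rw [h1, Matrix.add_mulVec, Matrix.one_mulVec, Matrix.smul_mulVec]

end

/-- **job CEN** -/
theorem tCen : Q4.ZO.SCen := by
  intro R _ _ m q d a g hg hga hge hgf
  let K : Subgroup (GL (Ix (m + 3) q) R) :=
    { carrier := {y | y ∈ EO d ∧ g * y * g⁻¹ * y⁻¹ ∈ EEO d a}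
      one_mem' := by
        refine ⟨one_mem _, ?_⟩
        have e : g * 1 * g⁻¹ * (1 : GL (Ix (m + 3) q) R)⁻¹ = 1 := by group
        rw [e]
        exact one_mem _
      mul_mem' := by
        rintro y z ⟨hy, hy'⟩ ⟨hz, hz'⟩
        refine ⟨mul_mem hy hz, ?_⟩
        have e : g * (y * z) * g⁻¹ * (y * z)⁻¹ =
            (g * y * g⁻¹ * y⁻¹) * (y * (g * z * g⁻¹ * z⁻¹) * y⁻¹) := by group
        rw [e]
        exact mul_mem hy' (EEO_conj d hy hz')
      inv_mem' := by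
        rintro y ⟨hy, hy'⟩
        refine ⟨inv_mem hy, ?_⟩
        have e : g * y⁻¹ * g⁻¹ * y⁻¹⁻¹ = y⁻¹ * (g * y * g⁻¹ * y⁻¹)⁻¹ * y⁻¹⁻¹ := by group
        rw [e]
        exact EEO_conj d (inv_mem hy) (inv_mem hy') }
  have hK : EO d ≤ K := by
    refine EO_le d 0 K ?_
    intro x u w hu h1 h2 hx
    have q0 : Qf d u = 0 := Qf_u d 0 u hu
    have q1 : Bf d w u = 0 := Bf_u d w 0 u hu h1 h2
    refine ⟨Subgroup.subset_closure ⟨u, w, hx, 0, hu, h1, h2⟩, ?_⟩
    have hgu : g.1 *ᵥ u = u := by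
      rcases hu with rfl | rfl
      · exact hge
      · exact hgf
    obtain ⟨w', hw'⟩ := mod_mulVec hga w
    have c1 : (a • w') (Sum.inl 0) = 0 := by
      have e := iso_Bf hg w (vf R 0)
      rw [hgf, hw', Bf_add_left, Bf_vf, Bf_vf] at e
      exact left_eq_add.1 e.symm
    have c2 : (a • w') (Sum.inr (Sum.inl 0)) = 0 := by
      have e := iso_Bf hg w (ve R 0)
      rw [hge, hw', Bf_add_left, Bf_ve, Bf_ve] at e
      exact left_eq_add.1 e.symm
    have q2 : Bf d (a • w') u = 0 := Bf_u d _ 0 u hu c1 c2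
    obtain ⟨y, hy⟩ := exists_Ei d u (a • w') q0 q2
    have h5 := Ei_comm hg hx hgu hw' hy q0 q1 q2
    rw [commutatorElement_def] at h5
    rw [← h5]
    exact Subgroup.subset_closure ⟨1, y, u, w', one_mem _, ⟨hy, 0, hu, c1, c2⟩, by group⟩
  intro y hy
  exact (hK hy).2

end Q190.ZO
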