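import Pool.Agent.Q190.ZO.Cen

/-! Project ZO of helper4, job DEC: isometries congruent to `1` are reduced to isometries fixing a
hyperbolic plane. -/

set_option autoImplicit false
set_option linter.unusedSimpArgs false
set_option linter.unusedVariables false
set_option linter.unusedSectionVars false

namespace Q190.ZO

open Matrix Q4.ZO Q210.ZO
open scoped commutatorElement

section

variable {R : Type} [CommRing R] {p q : ℕ} (d : Fin q → R)

theorem iso_one : IsIso d (1 : GL (Ix p q) R) := fun v => by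
  rw [Units.val_one, Matrix.one_mulVec]

theorem iso_mul {x y : GL (Ix p q) R} (hx : IsIso d x) (hy : IsIso d y) : IsIso d (x * y) :=
  fun v => by rw [mv_mul, hx, hy]

theorem iso_inv {x : GL (Ix p q) R} (hx : IsIso d x) : IsIso d x⁻¹ := fun v => by
  rw [← hx ((x⁻¹).1 *ᵥ v), mv_inv]

theorem EO_iso {x : GL (Ix p q) R} (hx : x ∈ EO d) : IsIso d x := by
  unfold EO at hx
  induction hx using Subgroup.closure_induction with
  | mem x hx =>
    obtain ⟨u, w, hx, i, hu, h1, h2⟩ := hx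
    exact Ei_iso hx (Qf_u d i u hu) (Bf_u d w i u hu h1 h2)
  | one => exact iso_one d
  | mul x y _ _ hx hy => exact iso_mul d hx hy
  | inv x _ hx => exact iso_inv d hx

/-- the matrix is `1` modulo `a` -/
def Md (a : R) (x : GL (Ix p q) R) : Prop := ∀ v, ∃ v' : Ix p q → R, x.1 *ᵥ v = v + a • v'

theorem Md_of {a : R} {g : GL (Ix p q) R}
    (hg : ∀ i j, a ∣ g.1 i j - (1 : Matrix (Ix p q) (Ix p q) R) i j) : Md a g :=
  fun v => mod_mulVec hg v

theorem Md_mul {a : R} {x y : GL (Ix p q) R} (hx : Md a x) (hy : Md a y) : Md a (x * y) := by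
  intro v
  obtain ⟨v1, h1⟩ := hy v
  obtain ⟨v2, h2⟩ := hx v
  refine ⟨v2 + x.1 *ᵥ v1, ?_⟩
  rw [mv_mul, h1, Matrix.mulVec_add, h2, Matrix.mulVec_smul]
  module

theorem Md_inv {a : R} {x : GL (Ix p q) R} (hx : Md a x) : Md a x⁻¹ := by
  intro v
  obtain ⟨v1, h1⟩ := hx v
  refine ⟨-((x⁻¹).1 *ᵥ v1), ?_⟩
  have h2 := congrArg (fun u => (x⁻¹).1 *ᵥ u) h1
  simp only [mv_inv', Matrix.mulVec_add, Matrix.mulVec_smul] at h2
  rw [smul_neg, ← sub_eq_add_neg]
  exact eq_sub_of_add_eq h2.symm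

theorem Md_conj {a : R} {h x : GL (Ix p q) R} (hx : Md a x) : Md a (h * x * h⁻¹) := by
  intro v
  obtain ⟨v1, h1⟩ := hx ((h⁻¹).1 *ᵥ v)
  refine ⟨h.1 *ᵥ v1, ?_⟩
  rw [mv_mul, mv_mul, h1, Matrix.mulVec_add, mv_inv, Matrix.mulVec_smul]

theorem Md_Ei {a : R} {x : GL (Ix p q) R} {u w : Ix p q → R} (hx : IsEi d x u (a • w)) :
    Md a x := by
  intro v
  refine ⟨Bf d v u • w - (Bf d v w + a * Qf d w * Bf d v u) • u, ?_⟩
  rw [hx, Bf_smul_right, Qf_smul]
  module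

/-- the elements of the relative elementary group are isometries which are `1` modulo `a` -/
theorem EEO_iso {a : R} {x : GL (Ix p q) R} (hx : x ∈ EEO d a) : IsIso d x ∧ Md a x := by
  unfold EEO at hx
  induction hx using Subgroup.closure_induction with
  | mem x hx =>
    obtain ⟨h, y, u, w, hh, ⟨hy, i, hu, h1, h2⟩, rfl⟩ := hx
    have hi := EO_iso d hh
    exact ⟨iso_mul d (iso_mul d hi (Ei_iso hy (Qf_u d i u hu) (Bf_u d _ i u hu h1 h2)))
      (iso_inv d hi), Md_conj (Md_Ei d hy)⟩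
  | one => exact ⟨iso_one d, fun v => ⟨0, by rw [Units.val_one, Matrix.one_mulVec]; simp⟩⟩
  | mul x y _ _ hx hy => exact ⟨iso_mul d hx.1 hy.1, Md_mul hx.2 hy.2⟩
  | inv x _ hx => exact ⟨iso_inv d hx.1, Md_inv hx.2⟩

/-- the images of basis vectors are unimodular -/
theorem unimod (g : GL (Ix p q) R) (v : Ix p q → R) (i : Ix p q) (hi : v i = 1) :
    Ideal.span (Set.range (g.1 *ᵥ v)) = ⊤ := by
  rw [Ideal.eq_top_iff_one]
  have h1 : (g⁻¹).1 *ᵥ (g.1 *ᵥ v) = v := mv_inv' g v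
  have h2 := congrFun h1 i
  rw [hi] at h2
  rw [← h2, Matrix.mulVec, dotProduct]
  exact Ideal.sum_mem _ fun j _ => Ideal.mul_mem_left _ _ (Ideal.subset_span ⟨j, rfl⟩)

end

/-- **job DEC** -/
theorem tDecG : Q4.ZO.STra → Q4.ZO.SDecG := by
  intro hT R _ _ _ m q d a ha hau h2d h2a g hg hga
  obtain ⟨x0, hx0, hx0v⟩ := hT R m q d a ha hau h2d h2a (g.1 *ᵥ ve R 0)
    (unimod g (ve R 0) (Sum.inl 0) (by rw [ve_inl, if_pos rfl])) (by rw [hg, Qf_ve]) (by
      intro j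
      obtain ⟨v', hv'⟩ := mod_mulVec hga (ve R 0)
      rw [hv', Pi.add_apply, add_sub_cancel_left]
      exact ⟨v' j, rfl⟩)
  obtain ⟨ix0, mx0⟩ := EEO_iso d hx0
  have hg' : IsIso d (x0 * g) := iso_mul d ix0 hg
  have mg' : Md a (x0 * g) := Md_mul mx0 (Md_of hga)
  have hge : (x0 * g).1 *ᵥ ve R 0 = ve R 0 := by rw [mv_mul, hx0v]
  obtain ⟨v2, hv2⟩ : ∃ v2, v2 = (x0 * g).1 *ᵥ vf R 0 := ⟨_, rfl⟩
  have k1 : v2 (Sum.inr (Sum.inl 0)) = 1 := by
    have e := iso_Bf hg' (vf R 0) (ve R 0)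
    rw [hge, ← hv2, Bf_ve, Bf_ve, vf_inr, if_pos rfl] at e
    exact e
  have k2 : Qf d v2 = 0 := by rw [hv2, hg', Qf_vf]
  obtain ⟨w1, hw1, g1, g2, g3⟩ := w_split 0 v2
  rw [k1, one_smul] at hw1
  obtain ⟨v', hv'⟩ := mg' (vf R 0)
  rw [← hv2] at hv'
  obtain ⟨w', hw'⟩ : ∃ w' : Ix (m + 3) q → R, w1 = a • w' := by
    refine ⟨fun j => if j = Sum.inl 0 ∨ j = Sum.inr (Sum.inl 0) then 0 else v' j, ?_⟩
    funext j
    rw [Pi.smul_apply]
    by_cases h1 : j = Sum.inl 0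
    · rw [if_pos (Or.inl h1), smul_zero, h1, g1]
    · by_cases h2 : j = Sum.inr (Sum.inl 0)
      · rw [if_pos (Or.inr h2), smul_zero, h2, g2]
      · rw [if_neg (by tauto), g3 j h1 h2, hv', Pi.add_apply, Pi.smul_apply]
        have : (vf R 0 : Ix (m + 3) q → R) j = 0 := by
          simp [vf, Pi.single_apply, h2]
        rw [this, zero_add]
  have b1 : Bf d w1 (ve R 0) = 0 := by rw [Bf_ve, g2]
  have b2 : Bf d w1 (vf R 0) = 0 := by rw [Bf_vf, g1]
  have b3 : Bf d (-w1) (ve R 0) = 0 := by rw [Bf_neg_left, b1, neg_zero]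
  have b4 : Bf d (ve R 0 : Ix (m + 3) q → R) (ve R 0) = 0 := by
    rw [Bf_self, Qf_ve, mul_zero]
  have b5 : Bf d (vf R 0 : Ix (m + 3) q → R) (ve R 0) = 1 := by
    rw [Bf_ve, vf_inr, if_pos rfl]
  have q1 : Qf d (-w1) = Qf d w1 := by
    rw [← neg_one_smul R w1, Qf_smul]
    ring
  have t1 : v2 (Sum.inl 0) = -Qf d w1 := by
    have e : Qf d v2 = Qf d w1 + v2 (Sum.inl 0) := by
      conv_lhs => rw [hw1]
      rw [Qf_add, Qf_add, Qf_smul, Qf_ve, Qf_vf, Bf_smul_left, Bf_add_right, Bf_smul_right, b1,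
        b2, Bf_comm d (ve R 0) (vf R 0), b5]
      ring
    rw [k2] at e
    linear_combination -e
  obtain ⟨x1, hx1⟩ := exists_Ei d (ve R 0) (-w1) (Qf_ve d 0) b3
  have hx1' : x1 ∈ EEO d a := by
    refine Subgroup.subset_closure ⟨1, x1, ve R 0, -w', one_mem _, ⟨?_, 0, Or.inl rfl, ?_, ?_⟩,
      by group⟩
    · rw [smul_neg, ← hw']
      exact hx1
    · rw [smul_neg, ← hw', Pi.neg_apply, g1, neg_zero]
    · rw [smul_neg, ← hw', Pi.neg_apply, g2, neg_zero]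
  refine ⟨x1 * x0, mul_mem hx1' hx0, ?_, ?_⟩
  · rw [mul_assoc, mv_mul, hge, hx1, b4, Bf_comm, b3]
    module
  · rw [mul_assoc, mv_mul, ← hv2, hx1, q1, Bf_neg_right]
    have e1 : Bf d v2 (ve R 0) = 1 := by rw [Bf_ve, k1]
    have e2 : Bf d v2 w1 = 2 * Qf d w1 := by
      conv_lhs => rw [hw1]
      rw [Bf_add_left, Bf_add_left, Bf_smul_left, Bf_comm d (ve R 0) w1, b1,
        Bf_comm d (vf R 0) w1, b2, Bf_self]
      ring
    rw [e1, e2]
    conv_lhs => rw [hw1]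
    rw [t1]
    module

end Q190.ZO
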