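import Pool.Agent.Q190.ZO.DecG

/-! Project ZO of helper4, job TRA: transitivity of the relative elementary orthogonal group on
unimodular isotropic vectors congruent to a basis vector. -/

set_option autoImplicit false
set_option linter.unusedSimpArgs false
set_option linter.unusedVariables false
set_option linter.unusedSectionVars false

namespace Q190.ZO

open Matrix Q4.ZO Q210.ZO IsDedekindDomain

section

variable {R : Type} [CommRing R] {p q : ℕ} (d : Fin q → R)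

theorem Bf_mem (P : Ideal R) (v δ : Ix p q → R) (h : ∀ j, δ j ∈ P) : Bf d v δ ∈ P := by
  unfold Bf
  refine P.add_mem (P.sum_mem fun i _ => P.add_mem (P.mul_mem_left _ (h _))
    (P.mul_mem_left _ (h _))) (P.sum_mem fun k _ => P.mul_mem_left _ (h _))

theorem Qf_mem (P : Ideal R) (δ : Ix p q → R) (h : ∀ j, δ j ∈ P) : Qf d δ ∈ P := by
  unfold Qf
  refine P.add_mem (P.sum_mem fun i _ => P.mul_mem_left _ (h _))
    (P.sum_mem fun k _ => P.mul_mem_left _ ?_)
  rw [pow_two]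
  exact P.mul_mem_left _ (h _)

theorem vg_inl (k : Fin q) (i : Fin p) : (vg R k : Ix p q → R) (Sum.inl i) = 0 := by
  simp [vg, Pi.single_apply]

theorem vg_inrl (k : Fin q) (i : Fin p) : (vg R k : Ix p q → R) (Sum.inr (Sum.inl i)) = 0 := by
  simp [vg, Pi.single_apply]

theorem vg_inrr (k l : Fin q) : (vg R k : Ix p q → R) (Sum.inr (Sum.inr l)) =
    if l = k then 1 else 0 := by
  simp [vg, Pi.single_apply]

theorem Bf_vg (v : Ix p q → R) (k : Fin q) :
    Bf d v (vg R k) = 2 * d k * v (Sum.inr (Sum.inr k)) := by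
  unfold Bf
  simp only [vg_inl, vg_inrl, vg_inrr]
  rw [Finset.sum_eq_zero (fun i _ => by ring), zero_add, Finset.sum_eq_single k]
  · simp
  · intro l _ hl
    rw [if_neg hl, mul_zero]
  · intro h
    exact absurd (Finset.mem_univ _) h

theorem Qf_vg (k : Fin q) : Qf d (vg R k : Ix p q → R) = d k := by
  unfold Qf
  simp only [vg_inl, vg_inrl, vg_inrr]
  rw [Finset.sum_eq_zero (fun i _ => by ring), zero_add, Finset.sum_eq_single k]
  · simp
  · intro l _ hl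
    rw [if_neg hl]
    ring
  · intro h
    exact absurd (Finset.mem_univ _) h

theorem span_map (g : GL (Ix p q) R) (v : Ix p q → R) (h : Ideal.span (Set.range v) = ⊤) :
    Ideal.span (Set.range (g.1 *ᵥ v)) = ⊤ := by
  rw [eq_top_iff, ← h, Ideal.span_le]
  rintro _ ⟨j, rfl⟩
  have h1 := congrFun (mv_inv' g v) j
  rw [SetLike.mem_coe, ← h1, Matrix.mulVec, dotProduct]
  exact Ideal.sum_mem _ fun j _ => Ideal.mul_mem_left _ _ (Ideal.subset_span ⟨j, rfl⟩)

end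

section

variable {R : Type} [CommRing R] {m q : ℕ} (d : Fin q → R)

/-- unimodular isotropic vectors congruent to `e_0` -/
structure Good (a : R) (v : Ix (m + 3) q → R) : Prop where
  uni : Ideal.span (Set.range v) = ⊤
  iso : Qf d v = 0
  cg : ∀ j, a ∣ v j - ve R 0 j

variable {d}

theorem Good.map {a : R} {v : Ix (m + 3) q → R} (h : Good d a v) {g : GL (Ix (m + 3) q) R}
    (hg : g ∈ EEO d a) : Good d a (g.1 *ᵥ v) := by
  obtain ⟨h1, h2⟩ := EEO_iso d hg
  refine ⟨span_map g v h.uni, by rw [h1, h.iso], fun j => ?_⟩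
  obtain ⟨v', hv'⟩ := h2 v
  rw [hv', Pi.add_apply, Pi.smul_apply, smul_eq_mul, add_sub_right_comm]
  exact dvd_add (h.cg j) (dvd_mul_right _ _)

theorem Good.x0 {a : R} {v : Ix (m + 3) q → R} (h : Good d a v) : a ∣ v (Sum.inl 0) - 1 := by
  have := h.cg (Sum.inl 0)
  rwa [ve_inl, if_pos rfl] at this

theorem Good.other {a : R} {v : Ix (m + 3) q → R} (h : Good d a v) {j : Ix (m + 3) q}
    (hj : j ≠ Sum.inl 0) : a ∣ v j := by
  have h1 := h.cg j
  have h2 : (ve R 0 : Ix (m + 3) q → R) j = 0 := by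
    simp [ve, Pi.single_apply, hj]
  rwa [h2, sub_zero] at h1

/-- a prime which contains the first component does not contain `a` -/
theorem Good.notMem {a : R} {v : Ix (m + 3) q → R} (h : Good d a v) {P : Ideal R}
    (hP : P.IsPrime) (h0 : v (Sum.inl 0) ∈ P) : a ∉ P := by
  intro ha
  obtain ⟨c, hc⟩ := h.x0
  apply hP.ne_top
  rw [Ideal.eq_top_iff_one]
  have e : (1 : R) = v (Sum.inl 0) - a * c := by rw [← hc]; ring
  rw [e]
  exact P.sub_mem h0 (P.mul_mem_right _ ha)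

theorem Good.ex {a : R} {v : Ix (m + 3) q → R} (h : Good d a v) {P : Ideal R}
    (hP : P.IsPrime) : ∃ j, v j ∉ P := by
  by_contra hc
  push Not at hc
  apply hP.ne_top
  rw [eq_top_iff, ← h.uni, Ideal.span_le]
  rintro _ ⟨j, rfl⟩
  exact hc j

/-- the relation -/
def Rl (d : Fin q → R) (a : R) (v v' : Ix (m + 3) q → R) : Prop :=
  ∃ g ∈ EEO d a, g.1 *ᵥ v = v'

theorem Rl.trans {a : R} {v v' v'' : Ix (m + 3) q → R} (h : Rl d a v v') (h' : Rl d a v' v'') :
    Rl d a v v'' := by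
  obtain ⟨g, hg, rfl⟩ := h
  obtain ⟨g', hg', rfl⟩ := h'
  exact ⟨g' * g, mul_mem hg' hg, mv_mul _ _ _⟩

theorem Rl.good {a : R} {v v' : Ix (m + 3) q → R} (h : Rl d a v v') (hv : Good d a v) :
    Good d a v' := by
  obtain ⟨g, hg, rfl⟩ := h
  exact hv.map hg

/-- an elementary transformation -/
theorem Rl.ei {a : R} (v : Ix (m + 3) q → R) (i : Fin (m + 3)) (u w : Ix (m + 3) q → R)
    (hu : u = ve R i ∨ u = vf R i) (h1 : w (Sum.inl i) = 0) (h2 : w (Sum.inr (Sum.inl i)) = 0) :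
    Rl d a v (v + Bf d v u • (a • w) - (Bf d v (a • w) + Qf d (a • w) * Bf d v u) • u) := by
  have h3 : (a • w) (Sum.inl i) = 0 := by rw [Pi.smul_apply, h1, smul_zero]
  have h4 : (a • w) (Sum.inr (Sum.inl i)) = 0 := by rw [Pi.smul_apply, h2, smul_zero]
  obtain ⟨x, hx⟩ := exists_Ei d u (a • w) (Qf_u d i u hu) (Bf_u d _ i u hu h3 h4)
  exact ⟨x, Subgroup.subset_closure ⟨1, x, u, w, one_mem _, ⟨hx, i, hu, h3, h4⟩, by group⟩, hx v⟩

end

theorem n02 {m : ℕ} : (0 : Fin (m + 3)) ≠ 2 := by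
  intro h
  have := congrArg Fin.val h
  rw [Fin.val_zero, Fin.val_two] at this
  omega

theorem n12 {m : ℕ} : (1 : Fin (m + 3)) ≠ 2 := by
  intro h
  have := congrArg Fin.val h
  rw [Fin.val_one, Fin.val_two] at this
  omega

theorem n20 {m : ℕ} : (2 : Fin (m + 3)) ≠ 0 := n02.symm

theorem n21 {m : ℕ} : (2 : Fin (m + 3)) ≠ 1 := n12.symm

section dedekind

variable {R : Type} [CommRing R] [IsDedekindDomain R] {m q : ℕ} {d : Fin q → R}

/-- the Chinese remainder theorem -/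
theorem crt (S : Finset (HeightOneSpectrum R)) (f : HeightOneSpectrum R → R) :
    ∃ y : R, ∀ P ∈ S, y - f P ∈ P.asIdeal := by
  obtain ⟨y, hy⟩ := IsDedekindDomain.exists_forall_sub_mem_ideal (s := S)
    (fun P : HeightOneSpectrum R => P.asIdeal) (fun _ => 1)
    (fun P _ => Ideal.prime_of_isPrime P.ne_bot P.isPrime)
    (fun P _ Q _ h h' => h (HeightOneSpectrum.ext h')) (fun P => f P.1)
  refine ⟨y, fun P hP => ?_⟩
  have := hy P hP
  rwa [pow_one] at this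

/-- finitely many primes contain a nonzero element -/
theorem fin_primes {x : R} (hx : x ≠ 0) :
    ∃ S : Finset (HeightOneSpectrum R), ∀ P : HeightOneSpectrum R, x ∈ P.asIdeal → P ∈ S := by
  have h1 : (Ideal.span {x} : Ideal R) ≠ 0 := by
    rw [Ne, Ideal.zero_eq_bot, Ideal.span_singleton_eq_bot]
    exact hx
  refine ⟨(Ideal.finite_factors h1).toFinset, fun P hP => ?_⟩
  rw [Set.Finite.mem_toFinset]
  change P.asIdeal ∣ Ideal.span {x}
  rw [Ideal.dvd_span_singleton]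
  exact hP

/-- step 1 -/
theorem step1 {a : R} (ha : a ≠ 0) (v : Ix (m + 3) q → R) (hv : Good d a v) :
    ∃ v' : Ix (m + 3) q → R, Rl d a v v' ∧
      ∀ P : Ideal R, P.IsPrime → ∃ j, j ≠ Sum.inr (Sum.inl 0) ∧ v' j ∉ P := by
  by_cases hy : v (Sum.inr (Sum.inl 0)) = 0
  · refine ⟨v, ⟨1, one_mem _, by rw [Units.val_one, Matrix.one_mulVec]⟩, fun P hP => ?_⟩
    obtain ⟨j, hj⟩ := hv.ex hP
    refine ⟨j, ?_, hj⟩
    rintro rfl
    apply hj
    rw [hy]
    exact P.zero_mem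
  obtain ⟨y0, hy0⟩ : ∃ y0, y0 = v (Sum.inr (Sum.inl 0)) := ⟨_, rfl⟩
  rw [← hy0] at hy
  obtain ⟨t, ht⟩ : ∃ t : R, v (Sum.inl 1) + y0 * (a * t) ≠ 0 := by
    by_cases h : v (Sum.inl 1) = 0
    · refine ⟨1, ?_⟩
      rw [h, zero_add, mul_one]
      exact mul_ne_zero hy ha
    · exact ⟨0, by rwa [mul_zero, mul_zero, add_zero]⟩
  obtain ⟨S, hS⟩ := fin_primes ht
  classical
  obtain ⟨s, hs⟩ := crt S fun P => if v (Sum.inr (Sum.inl 1)) ∈ P.asIdeal then 1 else 0
  obtain ⟨w, hw⟩ : ∃ w : Ix (m + 3) q → R, w = t • ve R 1 + s • vf R 1 := ⟨_, rfl⟩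
  have w1 : w (Sum.inl 0) = 0 := by
    rw [hw]
    simp [ve_inl, vf_inl]
  have w2 : w (Sum.inr (Sum.inl 0)) = 0 := by
    rw [hw]
    simp [ve_inr, vf_inr]
  have w3 : w (Sum.inl 1) = t := by
    rw [hw]
    simp [ve_inl, vf_inl]
  have w4 : w (Sum.inr (Sum.inl 1)) = s := by
    rw [hw]
    simp [ve_inr, vf_inr]
  have hr := Rl.ei (d := d) (a := a) v 0 (ve R 0) w (Or.inl rfl) w1 w2
  refine ⟨_, hr, ?_⟩
  have hg := hr.good hv
  rw [Bf_ve, ← hy0] at hg ⊢
  obtain ⟨v', hv'⟩ : ∃ v', v' = v + y0 • (a • w) - (Bf d v (a • w) + Qf d (a • w) * y0) • ve R 0 :=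
    ⟨_, rfl⟩
  rw [← hv'] at hg ⊢
  have e1 : v' (Sum.inl 1) = v (Sum.inl 1) + y0 * (a * t) := by
    rw [hv', Pi.sub_apply, Pi.add_apply, Pi.smul_apply, Pi.smul_apply, Pi.smul_apply, w3, ve_inl,
      if_neg (by simp)]
    simp only [smul_eq_mul, mul_zero, sub_zero]
  have e2 : v' (Sum.inr (Sum.inl 1)) = v (Sum.inr (Sum.inl 1)) + y0 * (a * s) := by
    rw [hv', Pi.sub_apply, Pi.add_apply, Pi.smul_apply, Pi.smul_apply, Pi.smul_apply, w4, ve_inr]
    simp only [smul_eq_mul, mul_zero, sub_zero]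
  have e3 : v' (Sum.inr (Sum.inl 0)) = y0 := by
    rw [hv', Pi.sub_apply, Pi.add_apply, Pi.smul_apply, Pi.smul_apply, Pi.smul_apply, w2, ve_inr,
      hy0]
    simp only [smul_eq_mul, mul_zero, sub_zero, add_zero]
  intro P hP
  by_contra hc
  push Not at hc
  have hPb : P ≠ ⊥ := by
    rintro rfl
    have := hc (Sum.inl 1) (by simp)
    rw [e1, Ideal.mem_bot] at this
    exact ht this
  have haP : a ∉ P := hg.notMem hP (hc _ (by simp))
  have hyP : y0 ∉ P := by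
    intro h
    obtain ⟨j, hj⟩ := hg.ex hP
    by_cases h2 : j = Sum.inr (Sum.inl 0)
    · subst h2
      rw [e3] at hj
      exact hj h
    · exact hj (hc j h2)
  have hPS := hS ⟨P, hP, hPb⟩ (by
    change _ ∈ P
    rw [← e1]
    exact hc _ (by simp))
  have h5 := hs _ hPS
  change s - (if v (Sum.inr (Sum.inl 1)) ∈ P then 1 else 0) ∈ P at h5
  have h6 := hc (Sum.inr (Sum.inl 1)) (by simp)
  rw [e2] at h6
  by_cases h7 : v (Sum.inr (Sum.inl 1)) ∈ P
  · rw [if_pos h7] at h5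
    have h8 : y0 * (a * s) ∈ P := (P.add_mem_iff_right h7).1 h6
    rcases hP.mem_or_mem h8 with h | h
    · exact hyP h
    · rcases hP.mem_or_mem h with h | h
      · exact haP h
      · apply hP.ne_top
        rw [Ideal.eq_top_iff_one]
        have := P.sub_mem h h5
        rwa [sub_sub_cancel] at this
  · rw [if_neg h7, sub_zero] at h5
    have h8 : y0 * (a * s) ∈ P := P.mul_mem_left _ (P.mul_mem_left _ h5)
    exact h7 ((P.add_mem_iff_left h8).1 h6)

/-- the choice modulo a prime in step 2 -/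
theorem choice {a : R} (h2d : ∀ k, 2 * d k ∣ a) (v : Ix (m + 3) q → R) (hv : Good d a v)
    (hu : ∀ P : Ideal R, P.IsPrime → ∃ j, j ≠ Sum.inr (Sum.inl 0) ∧ v j ∉ P) (P : Ideal R)
    (hP : P.IsPrime) (h0 : v (Sum.inl 0) ∈ P) : ∃ w : Ix (m + 3) q → R,
    v (Sum.inl 1) - Bf d v (a • w) - Qf d (a • w) * v (Sum.inr (Sum.inl 1)) ∉ P ∧
    w (Sum.inl 0) = 0 ∧ w (Sum.inr (Sum.inl 0)) = 0 ∧ w (Sum.inl 1) = 0 ∧
    w (Sum.inr (Sum.inl 1)) = 0 := by
  have haP : a ∉ P := hv.notMem hP h0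
  have hmul : ∀ {x y : R}, x ∉ P → y ∉ P → x * y ∉ P := fun hx hy h =>
    (hP.mem_or_mem h).elim hx hy
  by_cases h1 : v (Sum.inl 1) ∈ P
  · by_cases h2 : v (Sum.inr (Sum.inl 1)) ∈ P
    · obtain ⟨j, hj, hjP⟩ := hu P hP
      have hj0 : j ≠ Sum.inl 0 := by rintro rfl; exact hjP h0
      have hj1 : j ≠ Sum.inl 1 := by rintro rfl; exact hjP h1
      have hj2 : j ≠ Sum.inr (Sum.inl 1) := by rintro rfl; exact hjP h2
      rcases j with i | i | k
      · have i0 : i ≠ 0 := fun h => hj0 (by rw [h])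
        have i1 : i ≠ 1 := fun h => hj1 (by rw [h])
        refine ⟨vf R i, ?_, by rw [vf_inl], by rw [vf_inr, if_neg (Ne.symm i0)], by rw [vf_inl],
          by rw [vf_inr, if_neg (Ne.symm i1)]⟩
        rw [Bf_smul_right, Bf_vf, Qf_smul, Qf_vf, mul_zero, zero_mul, sub_zero]
        intro h
        exact hmul haP hjP ((P.sub_mem_iff_right h1).1 h)
      · have i0 : i ≠ 0 := fun h => hj (by rw [h])
        have i1 : i ≠ 1 := fun h => hj2 (by rw [h])
        refine ⟨ve R i, ?_, by rw [ve_inl, if_neg (Ne.symm i0)], by rw [ve_inr],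
          by rw [ve_inl, if_neg (Ne.symm i1)], by rw [ve_inr]⟩
        rw [Bf_smul_right, Bf_ve, Qf_smul, Qf_ve, mul_zero, zero_mul, sub_zero]
        intro h
        exact hmul haP hjP ((P.sub_mem_iff_right h1).1 h)
      · refine ⟨vg R k, ?_, by rw [vg_inl], by rw [vg_inrl], by rw [vg_inl], by rw [vg_inrl]⟩
        rw [Bf_smul_right, Bf_vg, Qf_smul, Qf_vg]
        intro h
        have h5 := (P.sub_mem_iff_left (P.mul_mem_left (a ^ 2 * d k) h2)).1 h
        have h6 : 2 * d k ∉ P := fun h' => haP (P.mem_of_dvd (h2d k) h')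
        exact hmul haP (hmul h6 hjP) ((P.sub_mem_iff_right h1).1 h5)
    · by_cases h3 : v (Sum.inr (Sum.inl 2)) ∈ P
      · by_cases h4 : v (Sum.inl 2) ∈ P
        · refine ⟨ve R 2 + vf R 2, ?_, ?_, ?_, ?_, ?_⟩
          · have e : Qf d (ve R 2 + vf R 2 : Ix (m + 3) q → R) = 1 := by
              rw [Qf_add, Qf_ve, Qf_vf, Bf_vf, ve_inl, if_pos rfl]
              ring
            rw [Bf_smul_right, Bf_add_right, Bf_ve, Bf_vf, Qf_smul, e]
            intro h
            have h5 : v (Sum.inl 1) - a * (v (Sum.inr (Sum.inl 2)) + v (Sum.inl 2)) ∈ P :=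
              P.sub_mem h1 (P.mul_mem_left _ (P.add_mem h3 h4))
            have h6 := (P.sub_mem_iff_right h5).1 h
            rw [mul_one] at h6
            exact hmul (fun h' => haP (hP.mem_of_pow_mem 2 h')) h2 h6
          · rw [Pi.add_apply, ve_inl, vf_inl, if_neg (by simp [n02, n12, n20, n21]), add_zero]
          · rw [Pi.add_apply, ve_inr, vf_inr, if_neg (by simp [n02, n12, n20, n21]), add_zero]
          · rw [Pi.add_apply, ve_inl, vf_inl, if_neg (by simp [n02, n12, n20, n21]), add_zero]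
          · rw [Pi.add_apply, ve_inr, vf_inr, if_neg (by simp [n02, n12, n20, n21]), add_zero]
        · refine ⟨vf R 2, ?_, by rw [vf_inl], by rw [vf_inr, if_neg (by simp [n02, n12, n20, n21])],
            by rw [vf_inl], by rw [vf_inr, if_neg (by simp [n02, n12, n20, n21])]⟩
          rw [Bf_smul_right, Bf_vf, Qf_smul, Qf_vf, mul_zero, zero_mul, sub_zero]
          intro h
          exact hmul haP h4 ((P.sub_mem_iff_right h1).1 h)
      · refine ⟨ve R 2, ?_, by rw [ve_inl, if_neg (by simp [n02, n12, n20, n21])], by rw [ve_inr],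
          by rw [ve_inl, if_neg (by simp [n02, n12, n20, n21])], by rw [ve_inr]⟩
        rw [Bf_smul_right, Bf_ve, Qf_smul, Qf_ve, mul_zero, zero_mul, sub_zero]
        intro h
        exact hmul haP h3 ((P.sub_mem_iff_right h1).1 h)
  · refine ⟨0, ?_, rfl, rfl, rfl, rfl⟩
    have e1 : Bf d v (a • (0 : Ix (m + 3) q → R)) = 0 := by
      rw [smul_zero, ← zero_smul R (0 : Ix (m + 3) q → R), Bf_smul_right, zero_mul]
    have e2 : Qf d (a • (0 : Ix (m + 3) q → R)) = 0 := by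
      rw [smul_zero, ← zero_smul R (0 : Ix (m + 3) q → R), Qf_smul]
      ring
    rw [e1, e2, sub_zero, zero_mul, sub_zero]
    exact h1

/-- step 2 -/
theorem step2 {a : R} (hau : ¬ IsUnit a) (h2d : ∀ k, 2 * d k ∣ a)
    (v : Ix (m + 3) q → R) (hv : Good d a v)
    (hu : ∀ P : Ideal R, P.IsPrime → ∃ j, j ≠ Sum.inr (Sum.inl 0) ∧ v j ∉ P) :
    ∃ v' : Ix (m + 3) q → R, Rl d a v v' ∧ ∃ p0 p1 : R,
      p0 * v' (Sum.inl 0) + p1 * v' (Sum.inl 1) = 1 := by
  classical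
  have hx0 : v (Sum.inl 0) ≠ 0 := by
    intro h
    apply hau
    have := hv.x0
    rw [h, zero_sub] at this
    exact isUnit_of_dvd_one (by simpa using this)
  obtain ⟨S, hS⟩ := fin_primes hx0
  have hch : ∀ P : HeightOneSpectrum R, ∃ w : Ix (m + 3) q → R, v (Sum.inl 0) ∈ P.asIdeal →
      v (Sum.inl 1) - Bf d v (a • w) - Qf d (a • w) * v (Sum.inr (Sum.inl 1)) ∉ P.asIdeal ∧
      w (Sum.inl 0) = 0 ∧ w (Sum.inr (Sum.inl 0)) = 0 ∧ w (Sum.inl 1) = 0 ∧
      w (Sum.inr (Sum.inl 1)) = 0 := by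
    intro P
    by_cases h : v (Sum.inl 0) ∈ P.asIdeal
    · obtain ⟨w, hw⟩ := choice h2d v hv hu P.asIdeal P.isPrime h
      exact ⟨w, fun _ => hw⟩
    · exact ⟨0, fun h' => absurd h' h⟩
  choose W hW using hch
  have hcrt := fun j => crt S fun P => W P j
  choose c hc using hcrt
  let Z : Finset (Ix (m + 3) q) := {Sum.inl 0, Sum.inr (Sum.inl 0), Sum.inl 1, Sum.inr (Sum.inl 1)}
  obtain ⟨w, hw⟩ : ∃ w : Ix (m + 3) q → R, w = fun j => if j ∈ Z then 0 else c j := ⟨_, rfl⟩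
  have w1 : w (Sum.inl 0) = 0 := by rw [hw]; exact if_pos (by simp [Z])
  have w2 : w (Sum.inr (Sum.inl 0)) = 0 := by rw [hw]; exact if_pos (by simp [Z])
  have w3 : w (Sum.inl 1) = 0 := by rw [hw]; exact if_pos (by simp [Z])
  have w4 : w (Sum.inr (Sum.inl 1)) = 0 := by rw [hw]; exact if_pos (by simp [Z])
  have hr := Rl.ei (d := d) (a := a) v 1 (ve R 1) w (Or.inl rfl) w3 w4
  refine ⟨_, hr, ?_⟩
  rw [Bf_ve]
  obtain ⟨v', hv'⟩ : ∃ v', v' = v + v (Sum.inr (Sum.inl 1)) • (a • w) -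
    (Bf d v (a • w) + Qf d (a • w) * v (Sum.inr (Sum.inl 1))) • ve R 1 := ⟨_, rfl⟩
  rw [← hv']
  have e1 : v' (Sum.inl 0) = v (Sum.inl 0) := by
    rw [hv', Pi.sub_apply, Pi.add_apply, Pi.smul_apply, Pi.smul_apply, Pi.smul_apply, w1, ve_inl,
      if_neg (by simp)]
    simp only [smul_eq_mul, mul_zero, sub_zero, add_zero]
  have e2 : v' (Sum.inl 1) = v (Sum.inl 1) - Bf d v (a • w) -
      Qf d (a • w) * v (Sum.inr (Sum.inl 1)) := by
    rw [hv', Pi.sub_apply, Pi.add_apply, Pi.smul_apply, Pi.smul_apply, Pi.smul_apply, w3, ve_inl,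
      if_pos rfl]
    simp only [smul_eq_mul, mul_zero, add_zero, mul_one]
    ring
  have htop : Ideal.span {v' (Sum.inl 0), v' (Sum.inl 1)} = ⊤ := by
    by_contra hne
    obtain ⟨P, hP, hle⟩ := Ideal.exists_le_maximal _ hne
    have m0 : v (Sum.inl 0) ∈ P := by
      rw [← e1]
      exact hle (Ideal.subset_span (Set.mem_insert _ _))
    have m1 : v (Sum.inl 1) - Bf d v (a • w) - Qf d (a • w) * v (Sum.inr (Sum.inl 1)) ∈ P := by
      rw [← e2]
      exact hle (Ideal.subset_span (Set.mem_insert_of_mem _ rfl))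
    have hPb : P ≠ ⊥ := by
      rintro rfl
      exact hx0 ((Ideal.mem_bot).1 m0)
    obtain ⟨Q, hQ⟩ : ∃ Q : HeightOneSpectrum R, Q.asIdeal = P := ⟨⟨P, hP.isPrime, hPb⟩, rfl⟩
    have hQS : Q ∈ S := hS Q (by rw [hQ]; exact m0)
    obtain ⟨g1, g2, g3, g4, g5⟩ := hW Q (by rw [hQ]; exact m0)
    rw [hQ] at g1
    apply g1
    -- the difference
    obtain ⟨δ, hδ⟩ : ∃ δ : Ix (m + 3) q → R, δ = W Q - w := ⟨_, rfl⟩
    have hδP : ∀ j, δ j ∈ P := by
      intro j
      rw [hδ, Pi.sub_apply]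
      by_cases hj : j ∈ Z
      · have h7 : W Q j = 0 := by
          simp only [Z, Finset.mem_insert, Finset.mem_singleton] at hj
          rcases hj with rfl | rfl | rfl | rfl
          · exact g2
          · exact g3
          · exact g4
          · exact g5
        have h8 : w j = 0 := by rw [hw]; exact if_pos hj
        rw [h7, h8, sub_zero]
        exact P.zero_mem
      · have h8 : w j = c j := by rw [hw]; exact if_neg hj
        have h9 := hc j Q hQS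
        rw [hQ] at h9
        rw [h8, ← neg_sub]
        exact P.neg_mem h9
    have hWw : W Q = w + δ := by rw [hδ]; abel
    have k1 : Bf d v δ ∈ P := Bf_mem d P v δ hδP
    have k2 : Qf d δ ∈ P := Qf_mem d P δ hδP
    have k3 : Bf d w δ ∈ P := Bf_mem d P w δ hδP
    have e3 : v (Sum.inl 1) - Bf d v (a • W Q) - Qf d (a • W Q) * v (Sum.inr (Sum.inl 1)) =
        (v (Sum.inl 1) - Bf d v (a • w) - Qf d (a • w) * v (Sum.inr (Sum.inl 1))) -
        a * Bf d v δ - (a ^ 2 * v (Sum.inr (Sum.inl 1))) * Qf d δ -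
        (a ^ 2 * v (Sum.inr (Sum.inl 1))) * Bf d w δ := by
      rw [hWw, Bf_smul_right, Bf_add_right, Qf_smul, Qf_add, Bf_smul_right, Qf_smul]
      ring
    rw [e3]
    exact P.sub_mem (P.sub_mem (P.sub_mem m1 (P.mul_mem_left _ k1)) (P.mul_mem_left _ k2))
      (P.mul_mem_left _ k3)
  rw [Ideal.eq_top_iff_one, Ideal.mem_span_pair] at htop
  obtain ⟨p0, p1, hp⟩ := htop
  exact ⟨p0, p1, hp⟩

/-- step 3 -/
theorem step3 {a : R} (v : Ix (m + 3) q → R) (hv : Good d a v) (p0 p1 : R)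
    (hp : p0 * v (Sum.inl 0) + p1 * v (Sum.inl 1) = 1) :
    ∃ v' : Ix (m + 3) q → R, Rl d a v v' ∧ v' (Sum.inl 2) = 1 - v' (Sum.inl 0) := by
  obtain ⟨r, hr⟩ : a ∣ 1 - v (Sum.inl 0) - v (Sum.inl 2) := by
    have h1 := hv.x0
    have h2 : a ∣ v (Sum.inl 2) := hv.other (by simp [n02, n12, n20, n21])
    have e : 1 - v (Sum.inl 0) - v (Sum.inl 2) = -(v (Sum.inl 0) - 1) - v (Sum.inl 2) := by ring
    rw [e]
    exact dvd_sub (dvd_neg.2 h1) h2
  obtain ⟨w, hw⟩ : ∃ w : Ix (m + 3) q → R, w = (-(r * p0)) • vf R 0 + (-(r * p1)) • vf R 1 :=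
    ⟨_, rfl⟩
  have w1 : w (Sum.inl 2) = 0 := by
    rw [hw]
    simp [vf_inl]
  have w2 : w (Sum.inr (Sum.inl 2)) = 0 := by
    rw [hw]
    simp [vf_inr, n02, n12, n20, n21]
  have w3 : w (Sum.inl 0) = 0 := by
    rw [hw]
    simp [vf_inl]
  have hQ : Qf d w = 0 := by
    rw [hw, Qf_add, Qf_smul, Qf_smul, Qf_vf, Qf_vf, Bf_smul_right, Bf_smul_left, Bf_vf, vf_inl]
    ring
  have hB : Bf d v w = -(r * p0) * v (Sum.inl 0) + -(r * p1) * v (Sum.inl 1) := by
    rw [hw, Bf_add_right, Bf_smul_right, Bf_smul_right, Bf_vf, Bf_vf]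
  refine ⟨_, Rl.ei (d := d) (a := a) v 2 (ve R 2) w (Or.inl rfl) w1 w2, ?_⟩
  rw [Bf_smul_right, Qf_smul, hQ, hB]
  simp only [Pi.sub_apply, Pi.add_apply, Pi.smul_apply, smul_eq_mul, w1, w3, ve_inl, if_true,
    mul_zero, zero_mul, add_zero, mul_one]
  rw [if_neg (by simp [n02, n12, n20, n21])]
  linear_combination (-hr) + (a * r) * hp

/-- steps 4, 5, 6 -/
theorem step4 {a : R} (v : Ix (m + 3) q → R) (hv : Good d a v)
    (h : v (Sum.inl 2) = 1 - v (Sum.inl 0)) : Rl d a v (ve R 0) := by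
  have b1 : Bf d (-vf R 2 : Ix (m + 3) q → R) (ve R 0) = 0 := by
    rw [Bf_neg_left, Bf_ve, vf_inr, if_neg (by simp [n02, n12, n20, n21]), neg_zero]
  obtain ⟨X, hX⟩ := exists_Ei d (ve R 0) (-vf R 2) (Qf_ve d 0) b1
  have hXE : X ∈ EO d := Subgroup.subset_closure ⟨_, _, hX, 0, Or.inl rfl, by simp [vf_inl],
    by simp [vf_inr, n02, n12, n20, n21]⟩
  have q1 : Qf d (-vf R 2 : Ix (m + 3) q → R) = 0 := by
    rw [← neg_one_smul R (vf R 2 : Ix (m + 3) q → R), Qf_smul, Qf_vf, mul_zero]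
  have b2 : Bf d (ve R 0 : Ix (m + 3) q → R) (ve R 0) = 0 := by
    rw [Bf_self, Qf_ve, mul_zero]
  have hXe : X.1 *ᵥ ve R 0 = ve R 0 := by
    rw [hX, b2, Bf_comm, b1, q1]
    module
  obtain ⟨v4, hv4⟩ : ∃ v4, v4 = X.1 *ᵥ v := ⟨_, rfl⟩
  have e4 : v4 = v + v (Sum.inr (Sum.inl 0)) • (-vf R 2) + v (Sum.inl 2) • ve R 0 := by
    rw [hv4, hX, Bf_ve, Bf_neg_right, Bf_vf, q1]
    module
  have x0 : v4 (Sum.inl 0) = 1 := by
    rw [e4]
    simp [vf_inl, ve_inl, h]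
  have q4 : Qf d v4 = 0 := by
    rw [hv4, EO_iso d hXE, hv.iso]
  have hdv : ∀ j, j ≠ Sum.inl 0 → a ∣ v4 j := by
    intro j hj
    have hj0 : (ve R 0 : Ix (m + 3) q → R) j = 0 := by
      simp [ve, Pi.single_apply, hj]
    rw [e4, Pi.add_apply, Pi.add_apply, Pi.smul_apply, Pi.smul_apply, hj0, smul_zero, add_zero]
    exact dvd_add (hv.other hj) (Dvd.dvd.mul_right (hv.other (by simp)) _)
  obtain ⟨w1, hw1, g1, g2, g3⟩ := w_split 0 v4
  rw [x0, one_smul] at hw1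
  obtain ⟨w', hw'⟩ : ∃ w' : Ix (m + 3) q → R, -w1 = a • w' := by
    have : ∀ j, ∃ c, -w1 j = a * c := by
      intro j
      by_cases h1 : j = Sum.inl 0
      · exact ⟨0, by rw [h1, g1]; ring⟩
      · by_cases h2 : j = Sum.inr (Sum.inl 0)
        · exact ⟨0, by rw [h2, g2]; ring⟩
        · obtain ⟨c, hc⟩ := hdv j h1
          exact ⟨-c, by rw [g3 j h1 h2, hc]; ring⟩
    choose c hc using this
    exact ⟨c, funext fun j => hc j⟩
  have c1 : (-w1) (Sum.inl 0) = 0 := by rw [Pi.neg_apply, g1, neg_zero]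
  have c2 : (-w1) (Sum.inr (Sum.inl 0)) = 0 := by rw [Pi.neg_apply, g2, neg_zero]
  have b3 : Bf d (-w1) (vf R 0) = 0 := by rw [Bf_vf, c1]
  obtain ⟨E, hE⟩ := exists_Ei d (vf R 0) (-w1) (Qf_vf d 0) b3
  have hE' : IsEi d E (vf R 0) (a • w') := by rw [← hw']; exact hE
  have hEv : E.1 *ᵥ v4 = ve R 0 := by
    have k1 : Bf d v4 (vf R 0) = 1 := by rw [Bf_vf, x0]
    have k2 : Bf d w1 (ve R 0) = 0 := by rw [Bf_ve, g2]
    have k3 : Bf d w1 (vf R 0) = 0 := by rw [Bf_vf, g1]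
    have k4 : Bf d v4 w1 = 2 * Qf d w1 := by
      conv_lhs => rw [hw1]
      rw [Bf_add_left, Bf_add_left, Bf_smul_left, Bf_comm d (ve R 0) w1, k2,
        Bf_comm d (vf R 0) w1, k3, Bf_self]
      ring
    have k5 : Qf d (-w1) = Qf d w1 := by
      rw [← neg_one_smul R w1, Qf_smul]
      ring
    have k6 : v4 (Sum.inr (Sum.inl 0)) = -Qf d w1 := by
      have e : Qf d v4 = Qf d w1 + v4 (Sum.inr (Sum.inl 0)) := by
        conv_lhs => rw [hw1]
        rw [Qf_add, Qf_add, Qf_smul, Qf_ve, Qf_vf, Bf_add_right, Bf_smul_right, Bf_smul_right, k2,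
          k3, Bf_vf, ve_inl, if_pos rfl]
        ring
      rw [q4] at e
      linear_combination -e
    rw [hE, k1, Bf_neg_right, k4, k5]
    conv_lhs => rw [hw1]
    rw [k6]
    module
  refine ⟨X⁻¹ * E * X⁻¹⁻¹, ?_, ?_⟩
  · exact Subgroup.subset_closure ⟨X⁻¹, E, vf R 0, w', inv_mem hXE,
      ⟨hE', 0, Or.inr rfl, by rw [← hw']; exact c1, by rw [← hw']; exact c2⟩, rfl⟩
  · rw [inv_inv, mv_mul, mv_mul, ← hv4, hEv]
    conv_lhs => rw [← hXe]
    rw [mv_inv']

end dedekind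

/-- **job TRA** -/
theorem tTra : Q4.ZO.STra := by
  intro R _ _ _ m q d a ha hau h2d h2a v hv hv0 hvc
  have hG : Good d a v := ⟨hv, hv0, hvc⟩
  obtain ⟨v1, r1, u1⟩ := step1 ha v hG
  have hG1 := r1.good hG
  obtain ⟨v2, r2, p0, p1, hp⟩ := step2 hau h2d v1 hG1 u1
  have hG2 := r2.good hG1
  obtain ⟨v3, r3, h3⟩ := step3 v2 hG2 p0 p1 hp
  have hG3 := r3.good hG2
  exact ((r1.trans r2).trans r3).trans (step4 v3 hG3 h3)

end Q190.ZO
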